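import Pool.Agent.Y850.ZN.Indep

set_option autoImplicit false

/-!
# The ideal generated by the commutators with the nucleus of a free alternative ring

For a free alternative ring `A` with at least nine free generators no nonzero multiple of the ideal
`M` generated by `[N, A]` lies in the nucleus `N`; if there are infinitely many generators,
`(M + N) / N` contains a free abelian group whose rank is the number of generators.
The definitions `FreeAlt`, `nucleus` and `ZN` are in `Pool/Agent/Helper805/Nuc/Free.lean`.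
-/

namespace Pool.Agent.Results.MP_4b3fad_al.InfiniteRank

open Pool.Agent.Helper805.Nuc.Free Pool.Agent.Y850.ZN

/-- (1) The question: `M ⊄ N` for the free alternative ring on every set of at least nine
generators. (2) For every integer `m ≠ 0` even `m • M ⊄ N`. (3) If the set `X` of generators
contains `|I|` disjoint sets of nine elements, `M` contains a family indexed by `I` which is
linearly independent over the integers modulo `N`. (4) In particular, for infinite `X`, such a
family indexed by `X` itself. -/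
theorem result :
    (∀ X : Type, Nonempty (Fin 9 ↪ X) →
      ¬ ZN ℤ (FreeAlt ℤ X) ≤ nucleus ℤ (FreeAlt ℤ X)) ∧
    (∀ X : Type, Nonempty (Fin 9 ↪ X) → ∀ m : ℤ, m ≠ 0 →
      ∃ z ∈ ZN ℤ (FreeAlt ℤ X), m • z ∉ nucleus ℤ (FreeAlt ℤ X)) ∧
    (∀ X I : Type, Nonempty (I × Fin 9 ↪ X) →
      ∃ z : I → FreeAlt ℤ X, (∀ i, z i ∈ ZN ℤ (FreeAlt ℤ X)) ∧
        LinearIndependent ℤ (fun i => (nucleus ℤ (FreeAlt ℤ X)).mkQ (z i))) ∧
    (∀ (X : Type) [Infinite X],
      ∃ z : X → FreeAlt ℤ X, (∀ x, z x ∈ ZN ℤ (FreeAlt ℤ X)) ∧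
        LinearIndependent ℤ (fun x => (nucleus ℤ (FreeAlt ℤ X)).mkQ (z x))) := by
  have hnil : ∀ c : ℤ, IsNilpotent (6 * c) → c = 0 := by
    intro c hc
    have h := hc.eq_zero
    omega
  have key : ∀ X I : Type, Nonempty (I × Fin 9 ↪ X) →
      ∃ z : I → FreeAlt ℤ X, (∀ i, z i ∈ ZN ℤ (FreeAlt ℤ X)) ∧
        LinearIndependent ℤ (fun i => (nucleus ℤ (FreeAlt ℤ X)).mkQ (z i)) := by
    rintro X I ⟨ι⟩
    exact exists_indep ℤ hnil X I ι
  have key2 : ∀ X : Type, Nonempty (Fin 9 ↪ X) → ∀ m : ℤ, m ≠ 0 →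
      ∃ z ∈ ZN ℤ (FreeAlt ℤ X), m • z ∉ nucleus ℤ (FreeAlt ℤ X) := by
    rintro X ⟨ι⟩ m hm
    obtain ⟨z, hz, h⟩ := key X Unit ⟨(Equiv.punitProd (Fin 9)).toEmbedding.trans ι⟩
    refine ⟨z (), hz (), fun hmem => hm ?_⟩
    rw [linearIndependent_iff] at h
    have h2 := h (Finsupp.single () m) (by
      rw [Finsupp.linearCombination_single, ← map_smul]
      exact (Submodule.Quotient.mk_eq_zero _).2 hmem)
    exact Finsupp.single_eq_zero.1 h2
  refine ⟨?_, key2, key, fun X _ => key X X (exists_emb X)⟩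
  intro X hX hle
  obtain ⟨z, hz, h⟩ := key2 X hX 1 one_ne_zero
  exact h (Submodule.smul_mem _ _ (hle hz))

end Pool.Agent.Results.MP_4b3fad_al.InfiniteRank
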